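import Mathlib

namespace Pool.Agent.Results.MP_d17388_co.Q6Counter

/-- The hypercube `Q_d`: vertices are 0/1 vectors of length `d`, adjacent iff they differ in
exactly one coordinate. -/
def Q (d : ℕ) : SimpleGraph (Fin d → Bool) where
  Adj x y := ∃! i, x i ≠ y i
  symm := ⟨fun _ _ h => by simpa only [ne_comm] using h⟩
  loopless := ⟨fun _ h => by simp at h⟩

/-- Colour change rule: `A` is the set of filled vertices, `v` is filled and `w` is the only
non-filled neighbour of `v`. -/
def Forces {V : Type} (G : SimpleGraph V) (A : Set V) (v w : V) : Prop :=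
  v ∈ A ∧ w ∉ A ∧ G.Adj v w ∧ ∀ u, G.Adj v u → u ∉ A → u = w

/-- `S` is a zero forcing set: a finite sequence of single forces leads from `S` to all
vertices. -/
def IsZFS {V : Type} (G : SimpleGraph V) (S : Finset V) : Prop :=
  Relation.ReflTransGen (fun A B : Set V => ∃ v w, Forces G A v w ∧ B = insert w A)
    (↑S) Set.univ

/-- `S` is a minimum zero forcing set. -/
def IsMinZFS {V : Type} (G : SimpleGraph V) (S : Finset V) : Prop :=
  IsZFS G S ∧ ∀ T : Finset V, IsZFS G T → S.card ≤ T.card

/-- One time step: all available forces are performed simultaneously. -/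
def step {V : Type} (G : SimpleGraph V) (A : Set V) : Set V :=
  A ∪ {w | ∃ v, Forces G A v w}

/-- The propagation time `pt(G,S)`: the least `t` with `S^(t) = V(G)`, where `S^(t)` is the
result of `t` time steps started from `S`. -/
noncomputable def propTime {V : Type} (G : SimpleGraph V) (S : Finset V) : ℕ :=
  sInf {t | (step G)^[t] (↑S) = Set.univ}

/-- `PT(G)`: the largest propagation time of a minimum zero forcing set. -/
noncomputable def PT {V : Type} (G : SimpleGraph V) : ℕ :=
  sSup {k | ∃ S : Finset V, IsMinZFS G S ∧ propTime G S = k}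

/-! ### Proofs -/

section general
variable {V : Type}

/-- Shorthand used only in the proofs. -/
def stage (G : SimpleGraph V) (S : Finset V) (t : ℕ) : Set V := (step G)^[t] (↑S)

lemma stage_zero (G : SimpleGraph V) (S : Finset V) : stage G S 0 = ↑S := rfl

lemma stage_succ (G : SimpleGraph V) (S : Finset V) (t : ℕ) :
    stage G S (t + 1) = stage G S t ∪ {w | ∃ v, Forces G (stage G S t) v w} := by
  unfold stage
  rw [Function.iterate_succ_apply']
  rfl

lemma reach_step (G : SimpleGraph V) (A : Set V) (F : Finset V)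
    (hF : ∀ w ∈ F, ∃ v, Forces G A v w) :
    Relation.ReflTransGen (fun A B : Set V => ∃ v w, Forces G A v w ∧ B = insert w A)
      A (A ∪ ↑F) := by
  classical
  induction F using Finset.induction_on with
  | empty => simpa using Relation.ReflTransGen.refl
  | insert w F hw ih =>
    have ih' := ih (fun u hu => hF u (Finset.mem_insert_of_mem hu))
    obtain ⟨v, hv, hwA, hadj, huniq⟩ := hF w (Finset.mem_insert_self _ _)
    refine Relation.ReflTransGen.tail ih' ⟨v, w, ⟨Or.inl hv, ?_, hadj, ?_⟩, ?_⟩
    · rintro (h | h)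
      · exact hwA h
      · exact hw (by simpa using h)
    · intro u hu hu'
      exact huniq u hu (fun h => hu' (Or.inl h))
    · ext u; simp only [Finset.coe_insert, Set.mem_union, Set.mem_insert_iff]; tauto

lemma reach_stage [Fintype V] (G : SimpleGraph V) (S : Finset V) (t : ℕ) :
    Relation.ReflTransGen (fun A B : Set V => ∃ v w, Forces G A v w ∧ B = insert w A)
      (↑S) (stage G S t) := by
  classical
  induction t with
  | zero => exact Relation.ReflTransGen.refl
  | succ t ih =>
    refine ih.trans ?_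
    have := reach_step G (stage G S t)
      (Finset.univ.filter fun w => ∃ v, Forces G (stage G S t) v w) (by simp)
    simpa [stage_succ] using this

end general

/-- Flip coordinate `i`. -/
def flp {d : ℕ} (v : Fin d → Bool) (i : Fin d) : Fin d → Bool := Function.update v i (!v i)

lemma adj_iff {d : ℕ} (v w : Fin d → Bool) : (Q d).Adj v w ↔ ∃ i, w = flp v i := by
  constructor
  · rintro ⟨i, hi, hu⟩
    refine ⟨i, funext fun j => ?_⟩
    by_cases hj : j = i
    · subst hj
      simp only [flp, Function.update_self]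
      revert hi; cases v j <;> cases w j <;> simp
    · simp only [flp, Function.update_of_ne hj]
      by_contra h
      exact hj (hu j (fun h' => h h'.symm))
  · rintro ⟨i, rfl⟩
    refine ⟨i, by simp [flp], fun j hj => ?_⟩
    by_contra h
    exact hj (by simp [flp, Function.update_of_ne h])

lemma flp_flp {d : ℕ} (v : Fin d → Bool) (i : Fin d) : flp (flp v i) i = v := by
  funext j
  by_cases hj : j = i
  · subst hj; simp [flp]
  · simp [flp, Function.update_of_ne hj]

lemma flp_comm {d : ℕ} (v : Fin d → Bool) (i j : Fin d) : flp (flp v i) j = flp (flp v j) i := by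
  by_cases h : i = j
  · subst h; rfl
  · funext k
    by_cases hi : k = i
    · subst hi; simp [flp, Function.update_of_ne h]
    · by_cases hj : k = j
      · subst hj; simp [flp, Function.update_of_ne hi]
      · simp [flp, Function.update_of_ne hi, Function.update_of_ne hj]

lemma flp_inj {d : ℕ} (v : Fin d → Bool) {i j : Fin d} (h : flp v i = flp v j) : i = j := by
  by_contra hij
  have := congrFun h i
  simp [flp, Function.update_of_ne hij] at this

/-- The adjacency operator of `Q_6` over the field with two elements. -/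
def D : ((Fin 6 → Bool) → ZMod 2) →ₗ[ZMod 2] ((Fin 6 → Bool) → ZMod 2) where
  toFun x v := ∑ i, x (flp v i)
  map_add' x y := by funext v; simp [Finset.sum_add_distrib]
  map_smul' c x := by funext v; simp [Finset.mul_sum]

lemma D_D (x : (Fin 6 → Bool) → ZMod 2) : D (D x) = 0 := by
  funext v
  show ∑ i, ∑ j, x (flp (flp v i) j) = 0
  simp only [Fin.sum_univ_six, flp_flp]
  rw [flp_comm v 1 0, flp_comm v 2 0, flp_comm v 3 0, flp_comm v 4 0, flp_comm v 5 0,
    flp_comm v 2 1, flp_comm v 3 1, flp_comm v 4 1, flp_comm v 5 1,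
    flp_comm v 3 2, flp_comm v 4 2, flp_comm v 5 2,
    flp_comm v 4 3, flp_comm v 5 3, flp_comm v 5 4]
  have h2 : (2 : ZMod 2) = 0 := rfl
  linear_combination (3 * x v + x (flp (flp v 0) 1) + x (flp (flp v 0) 2) + x (flp (flp v 0) 3)
    + x (flp (flp v 0) 4) + x (flp (flp v 0) 5) + x (flp (flp v 1) 2) + x (flp (flp v 1) 3)
    + x (flp (flp v 1) 4) + x (flp (flp v 1) 5) + x (flp (flp v 2) 3) + x (flp (flp v 2) 4)
    + x (flp (flp v 2) 5) + x (flp (flp v 3) 4) + x (flp (flp v 3) 5) + x (flp (flp v 4) 5)) * h2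

lemma ker_rank : 32 ≤ Module.finrank (ZMod 2) (LinearMap.ker D) := by
  have h1 := LinearMap.finrank_range_add_finrank_ker D
  have h2 : LinearMap.range D ≤ LinearMap.ker D := by
    rintro _ ⟨x, rfl⟩
    exact D_D x
  have h3 := Submodule.finrank_mono h2
  have h4 : Module.finrank (ZMod 2) ((Fin 6 → Bool) → ZMod 2) = 64 := by simp
  omega

lemma vanish (x : (Fin 6 → Bool) → ZMod 2) (hx : D x = 0) (A B : Set (Fin 6 → Bool))
    (h : Relation.ReflTransGen
      (fun A B : Set (Fin 6 → Bool) => ∃ v w, Forces (Q 6) A v w ∧ B = insert w A) A B)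
    (hA : ∀ v ∈ A, x v = 0) : ∀ v ∈ B, x v = 0 := by
  induction h with
  | refl => exact hA
  | tail _ hstep ih =>
    obtain ⟨v, w, ⟨_, _, hadj, huniq⟩, rfl⟩ := hstep
    obtain ⟨i, rfl⟩ := (adj_iff _ _).1 hadj
    intro u hu
    rcases hu with rfl | hu
    · have h0 : ∑ j, x (flp v j) = 0 := congrFun hx v
      rw [Finset.sum_eq_single i] at h0
      · exact h0
      · intro j _ hj
        apply ih
        by_contra hn
        exact hj (flp_inj v (huniq _ ((adj_iff _ _).2 ⟨j, rfl⟩) hn))
      · simp
    · exact ih u hu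

lemma lower (T : Finset (Fin 6 → Bool)) (hT : IsZFS (Q 6) T) : 32 ≤ T.card := by
  let R : LinearMap.ker D →ₗ[ZMod 2] (T → ZMod 2) :=
    (LinearMap.funLeft (ZMod 2) (ZMod 2) (fun t : T => (t : Fin 6 → Bool))).comp
      (LinearMap.ker D).subtype
  have hR : Function.Injective R := by
    rw [injective_iff_map_eq_zero]
    rintro ⟨x, hx⟩ h
    have := vanish x hx _ _ hT (fun v hv => congrFun h ⟨v, hv⟩)
    ext v
    exact this v trivial
  have h1 := LinearMap.finrank_le_finrank_of_injective hR
  have h2 : Module.finrank (ZMod 2) (T → ZMod 2) = T.card := by simp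
  have := ker_rank
  omega

/-- The time at which each vertex gets filled. -/
def tm (v : Fin 6 → Bool) : ℕ :=
  [0, 12, 1, 14, 0, 18, 0, 0, 10, 16, 13, 14, 0, 0, 2, 14, 11, 0, 12, 13, 0, 13, 0, 17, 0, 0, 8,
    0, 9, 17, 0, 0, 0, 17, 0, 0, 18, 4, 0, 0, 16, 0, 0, 15, 0, 0, 0, 3, 0, 0, 0, 16, 12, 18, 17,
    5, 7, 0, 0, 6, 17, 0, 0, 0].getD
    ((v 0).toNat + 2 * (v 1).toNat + 4 * (v 2).toNat + 8 * (v 3).toNat + 16 * (v 4).toNat
      + 32 * (v 5).toNat) 0

lemma all6 (P : (Fin 6 → Bool) → Prop)
    (h : ∀ a b c d e f : Bool, P ![a, b, c, d, e, f]) (v : Fin 6 → Bool) : P v := by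
  have : v = ![v 0, v 1, v 2, v 3, v 4, v 5] := by
    funext i; fin_cases i <;> rfl
  rw [this]; exact h _ _ _ _ _ _

lemma tm_step : ∀ t < 18, ∀ w : Fin 6 → Bool, (tm w ≤ t + 1 ↔ tm w ≤ t ∨
    ∃ i, tm (flp w i) ≤ t ∧ ¬ tm w ≤ t ∧ ∀ j, ¬ tm (flp (flp w i) j) ≤ t → j = i) := by
  intro t ht
  apply all6
  revert t
  decide +kernel

lemma tm_le : ∀ w : Fin 6 → Bool, tm w ≤ 18 := by
  apply all6
  decide +kernel

/-- The initial set. -/
def S0 : Finset (Fin 6 → Bool) := Finset.univ.filter fun v => tm v = 0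

lemma S0_card : S0.card = 32 := by decide +kernel

lemma stage_eq (t : ℕ) (ht : t ≤ 18) : stage (Q 6) S0 t = {v | tm v ≤ t} := by
  induction t with
  | zero => ext v; simp [stage_zero, S0]
  | succ t ih =>
    have ih := ih (by omega)
    ext w
    simp only [stage_succ, ih, Set.mem_union, Set.mem_ofPred_eq]
    rw [tm_step t (by omega) w]
    refine or_congr Iff.rfl ?_
    constructor
    · rintro ⟨v, hv, hw, hadj, huniq⟩
      obtain ⟨i, rfl⟩ := (adj_iff _ _).1 hadj
      refine ⟨i, by rwa [flp_flp], hw, fun j hj => ?_⟩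
      rw [flp_flp] at hj
      exact flp_inj v (huniq _ ((adj_iff _ _).2 ⟨j, rfl⟩) hj)
    · rintro ⟨i, h1, h2, h3⟩
      refine ⟨flp w i, h1, h2, (adj_iff _ _).2 ⟨i, (flp_flp w i).symm⟩, fun u hu hu' => ?_⟩
      obtain ⟨j, rfl⟩ := (adj_iff _ _).1 hu
      rw [h3 j hu', flp_flp]

lemma stage18 : stage (Q 6) S0 18 = Set.univ := by
  rw [stage_eq 18 le_rfl]
  ext v; simpa using tm_le v

lemma S0_min : IsMinZFS (Q 6) S0 := by
  refine ⟨?_, fun T hT => by rw [S0_card]; exact lower T hT⟩
  have := reach_stage (Q 6) S0 18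
  rwa [stage18] at this

lemma S0_time : propTime (Q 6) S0 = 18 := by
  apply le_antisymm
  · exact Nat.sInf_le stage18
  · apply le_csInf ⟨18, stage18⟩
    intro t ht
    by_contra hlt
    have h1 : stage (Q 6) S0 t = Set.univ := ht
    rw [stage_eq t (by omega)] at h1
    have h2 : (![true, false, true, false, false, false] : Fin 6 → Bool) ∈ {v | tm v ≤ t} := by
      rw [h1]; trivial
    have h3 : tm ![true, false, true, false, false, false] = 18 := by decide
    simp only [Set.mem_ofPred_eq, h3] at h2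
    omega

/-- `PT(Q_6) ≥ 18`, which exceeds the conjectured value `2^(6-2) = 16`. -/
theorem result : 18 ≤ PT (Q 6) := by
  apply le_csSup
  · apply Set.Finite.bddAbove
    apply Set.Finite.subset (Set.finite_range (propTime (Q 6)))
    rintro k ⟨S, _, rfl⟩
    exact ⟨S, rfl⟩
  · exact ⟨S0, S0_min, S0_time⟩

end Pool.Agent.Results.MP_d17388_co.Q6Counter
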